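import Mathlib

set_option autoImplicit false

namespace Pool.Agent.Results.MP_3c244b_ag.TwoPoints

open MvPolynomial

/-- The weighted sextic y^2 - (x^3 + A(z,w) x + B(z,w)) in the coordinates (x,y,z,w). -/
noncomputable def sextic (A B : MvPolynomial (Fin 2) ℂ) : MvPolynomial (Fin 4) ℂ :=
  X 1 ^ 2 - (X 0 ^ 3 + rename ![2, 3] A * X 0 + rename ![2, 3] B)

/-- The affine cone over the surface is singular only at the origin. -/
def SmoothSurface (A B : MvPolynomial (Fin 2) ℂ) : Prop :=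
  ∀ v : Fin 4 → ℂ, eval v (sextic A B) = 0 → (∀ i, eval v (pderiv i (sextic A B)) = 0) → v = 0

/-- The exceptional curves x = q(z,w), y = c(z,w) of the surface that pass through the point v. -/
def linesThrough (A B : MvPolynomial (Fin 2) ℂ) (v : Fin 4 → ℂ) :
    Set (MvPolynomial (Fin 2) ℂ × MvPolynomial (Fin 2) ℂ) :=
  {L | L.1.IsHomogeneous 2 ∧ L.2.IsHomogeneous 3 ∧ L.2 ^ 2 = L.1 ^ 3 + A * L.1 + B ∧
    eval ![v 2, v 3] L.1 = v 0 ∧ eval ![v 2, v 3] L.2 = v 1}

lemma hom_eq (n : ℕ) (p : MvPolynomial (Fin 2) ℂ) (hp : p.IsHomogeneous n) :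
    p = ∑ i ∈ Finset.range (n + 1),
      C (coeff (Finsupp.single 0 i + Finsupp.single 1 (n - i)) p) * X 0 ^ i * X 1 ^ (n - i) := by
  ext d
  have hm : ∀ (i : ℕ) (a : ℂ), (C a * X 0 ^ i * X 1 ^ (n - i) : MvPolynomial (Fin 2) ℂ)
      = monomial (Finsupp.single 0 i + Finsupp.single 1 (n - i)) a := by
    intro i a
    rw [X_pow_eq_monomial, X_pow_eq_monomial, C_mul_monomial, monomial_mul]
    simp
  simp only [hm, coeff_sum, coeff_monomial]
  by_cases hd : d 0 + d 1 = n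
  · rw [Finset.sum_eq_single (d 0)]
    · have : Finsupp.single 0 (d 0) + Finsupp.single 1 (n - d 0) = d := by
        ext j; fin_cases j <;> simp; omega
      rw [this, if_pos rfl]
    · intro i _ hi
      rw [if_neg]
      intro h
      apply hi
      rw [← h]; simp
    · intro h; simp at h; omega
  · rw [hp.coeff_eq_zero, Finset.sum_eq_zero]
    · intro i hi
      rw [if_neg]
      intro h
      apply hd
      rw [← h]; simp at hi ⊢; omega
    · rw [Finsupp.degree_eq_sum]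
      simpa [Fin.sum_univ_two] using hd

noncomputable def AA : MvPolynomial (Fin 2) ℂ := -(X 0 ^ 2 - X 1 ^ 2) ^ 2
noncomputable def BB : MvPolynomial (Fin 2) ℂ := -(C 2 * (X 0 ^ 2 * X 1 ^ 2 * (X 0 ^ 2 + X 1 ^ 2)))

lemma AA_hom : AA.IsHomogeneous 4 :=
  ((((isHomogeneous_X ℂ 0).pow 2).sub ((isHomogeneous_X ℂ 1).pow 2)).pow 2).neg

lemma BB_hom : BB.IsHomogeneous 6 :=
  ((((((isHomogeneous_X ℂ 0).pow 2).mul ((isHomogeneous_X ℂ 1).pow 2)).mul
    (((isHomogeneous_X ℂ 0).pow 2).add ((isHomogeneous_X ℂ 1).pow 2))).C_mul 2)).neg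

lemma smooth : SmoothSurface AA BB := by
  intro v h0 h
  have h1 := h 0
  have h2 := h 1
  have h3 := h 2
  have h4 := h 3
  simp [sextic, AA, BB, Derivation.leibniz, Derivation.leibniz_pow, pderiv_X] at h0 h1 h2 h3 h4
  set x := v 0
  set y := v 1
  set z := v 2
  set w := v 3
  have E1 : 3 * x ^ 2 - (z ^ 2 - w ^ 2) ^ 2 = 0 := by linear_combination -h1
  have E2 : z * ((z ^ 2 - w ^ 2) * x + 2 * z ^ 2 * w ^ 2 + w ^ 4) = 0 := by
    linear_combination (1 / 4 : ℂ) * h3
  have E3 : w * ((w ^ 2 - z ^ 2) * x + 2 * z ^ 2 * w ^ 2 + z ^ 4) = 0 := by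
    linear_combination (1 / 4 : ℂ) * h4
  have hz : z = 0 := by
    by_contra hz
    have e2 := (mul_eq_zero.1 E2).resolve_left hz
    rcases mul_eq_zero.1 E3 with hw | e3
    · rw [hw] at E1 e2
      have : z ^ 6 = 0 := by linear_combination (-z ^ 2) * E1 + 3 * x * e2
      exact hz (pow_eq_zero_iff (by norm_num) |>.1 this)
    · have : z ^ 8 = 0 := by
        linear_combination
          ((5/27) * w ^ 4 + (14/27) * z ^ 2 * w ^ 2 + (-19/27) * z ^ 4) * E1
          - 2 * ((-5/54) * w ^ 4 + (29/27) * z ^ 2 * w ^ 2 + (-4/27) * z ^ 4 + (7/18) * x * w ^ 2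
            + (-19/18) * x * z ^ 2) * e2
          - 2 * ((-13/27) * w ^ 4 + (-10/27) * z ^ 2 * w ^ 2 + (-4/27) * z ^ 4
            + (2/3) * x * w ^ 2) * e3
      exact hz (pow_eq_zero_iff (by norm_num) |>.1 this)
  have hw : w = 0 := by
    by_contra hw
    have e3 := (mul_eq_zero.1 E3).resolve_left hw
    rw [hz] at E1 e3
    have : w ^ 6 = 0 := by linear_combination (-w ^ 2) * E1 + 3 * x * e3
    exact hw (pow_eq_zero_iff (by norm_num) |>.1 this)
  have hx : x = 0 := by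
    rw [hz, hw] at E1
    have : x ^ 2 = 0 := by linear_combination (1 / 3 : ℂ) * E1
    exact pow_eq_zero_iff (by norm_num) |>.1 this
  ext i
  fin_cases i
  · exact hx
  · exact h2
  · exact hz
  · exact hw

noncomputable def Q (a : ℂ) : MvPolynomial (Fin 2) ℂ := X 1 ^ 2 + C a * X 0 ^ 2
noncomputable def K (c1 c2 c3 : ℂ) : MvPolynomial (Fin 2) ℂ :=
  C c1 * (X 0 * X 1 ^ 2) + C c2 * (X 0 ^ 2 * X 1) + C c3 * X 0 ^ 3

lemma coefs (e0 e1 e2 e3 e4 e5 e6 : ℂ)
    (h : ∀ z : ℂ, e0 + e1 * z + e2 * z ^ 2 + e3 * z ^ 3 + e4 * z ^ 4 + e5 * z ^ 5 + e6 * z ^ 6 = 0) :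
    e0 = 0 ∧ e1 = 0 ∧ e2 = 0 ∧ e3 = 0 ∧ e4 = 0 ∧ e5 = 0 ∧ e6 = 0 := by
  have hp : (Polynomial.C e0 + Polynomial.C e1 * Polynomial.X ^ 1 + Polynomial.C e2 * Polynomial.X ^ 2
      + Polynomial.C e3 * Polynomial.X ^ 3 + Polynomial.C e4 * Polynomial.X ^ 4
      + Polynomial.C e5 * Polynomial.X ^ 5 + Polynomial.C e6 * Polynomial.X ^ 6 : Polynomial ℂ)
      = 0 := by
    apply Polynomial.funext
    intro z
    simpa using h z
  have hc := fun n => congrArg (fun p => Polynomial.coeff p n) hp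
  have h0 := hc 0
  have h1 := hc 1
  have h2 := hc 2
  have h3 := hc 3
  have h4 := hc 4
  have h5 := hc 5
  have h6 := hc 6
  simp [Polynomial.coeff_X_pow, Polynomial.coeff_C, Polynomial.coeff_X] at h0 h1 h2 h3 h4 h5 h6
  exact ⟨h0, h1, h2, h3, h4, h5, h6⟩

lemma mem_iff (L : MvPolynomial (Fin 2) ℂ × MvPolynomial (Fin 2) ℂ) :
    L ∈ linesThrough AA BB ![1, 0, 0, 1] ↔ ∃ a c1 c2 c3 : ℂ, L = (Q a, K c1 c2 c3) ∧
      c1 ^ 2 = 2 * a ∧ c1 * c2 = 0 ∧ c2 ^ 2 + 2 * c1 * c3 = 3 * a ^ 2 + 2 * a - 3 ∧ c2 * c3 = 0 ∧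
      c3 ^ 2 = a ^ 3 - a := by
  constructor
  · rintro ⟨h1, h2, h3, h4, h5⟩
    obtain ⟨q, c⟩ := L
    have e1 := hom_eq 2 q h1
    have e2 := hom_eq 3 c h2
    simp only [Finset.sum_range_succ, Finset.sum_range_zero] at e1 e2
    generalize coeff (Finsupp.single 0 0 + Finsupp.single 1 (2 - 0)) q = q0 at e1
    generalize coeff (Finsupp.single 0 1 + Finsupp.single 1 (2 - 1)) q = q1 at e1
    generalize coeff (Finsupp.single 0 2 + Finsupp.single 1 (2 - 2)) q = q2 at e1
    generalize coeff (Finsupp.single 0 0 + Finsupp.single 1 (3 - 0)) c = c0 at e2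
    generalize coeff (Finsupp.single 0 1 + Finsupp.single 1 (3 - 1)) c = c1 at e2
    generalize coeff (Finsupp.single 0 2 + Finsupp.single 1 (3 - 2)) c = c2 at e2
    generalize coeff (Finsupp.single 0 3 + Finsupp.single 1 (3 - 3)) c = c3 at e2
    subst e1 e2
    simp at h4 h5
    subst h4 h5
    have hz := coefs 0 (-2 * q1) (c1 ^ 2 - 2 * q2 - 3 * q1 ^ 2)
      (2 * c1 * c2 - (q1 ^ 3 + 6 * q1 * q2 + 2 * q1))
      (c2 ^ 2 + 2 * c1 * c3 - (3 * q2 ^ 2 + 3 * q1 ^ 2 * q2 + 2 * q2 - 3))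
      (2 * c2 * c3 - (3 * q1 * q2 ^ 2 - q1)) (c3 ^ 2 - (q2 ^ 3 - q2)) (by
        intro z
        have := congrArg (eval ![z, 1]) h3
        simp [AA, BB] at this
        linear_combination this)
    obtain ⟨-, g1, g2, g3, g4, g5, g6⟩ := hz
    have hq1 : q1 = 0 := by linear_combination (-1 / 2 : ℂ) * g1
    subst hq1
    refine ⟨q2, c1, c2, c3, ?_, by linear_combination g2, by linear_combination (1 / 2 : ℂ) * g3,
      by linear_combination g4, by linear_combination (1 / 2 : ℂ) * g5, by linear_combination g6⟩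
    simp [Q, K, mul_assoc]
  · rintro ⟨a, c1, c2, c3, rfl, g2, g3, g4, g5, g6⟩
    refine ⟨?_, ?_, ?_, ?_, ?_⟩
    · exact ((isHomogeneous_X ℂ 1).pow 2).add (((isHomogeneous_X ℂ 0).pow 2).C_mul a)
    · exact (((((isHomogeneous_X ℂ 0).mul ((isHomogeneous_X ℂ 1).pow 2)).C_mul c1).add
        ((((isHomogeneous_X ℂ 0).pow 2).mul (isHomogeneous_X ℂ 1)).C_mul c2)).add
        (((isHomogeneous_X ℂ 0).pow 3).C_mul c3))
    · apply MvPolynomial.funext
      intro v
      simp [Q, K, AA, BB]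
      linear_combination (v 0 ^ 2 * v 1 ^ 4) * g2 + (2 * v 0 ^ 3 * v 1 ^ 3) * g3
        + (v 0 ^ 4 * v 1 ^ 2) * g4 + (2 * v 0 ^ 5 * v 1) * g5 + v 0 ^ 6 * g6
    · simp [Q]
    · simp [K]

lemma Q_inj {a b : ℂ} (h : Q a = Q b) : a = b := by
  have := congrArg (eval ![1, 0]) h
  simpa [Q] using this

lemma K_inj {a b c a' b' c' : ℂ} (h : K a b c = K a' b' c') : a = a' ∧ b = b' ∧ c = c' := by
  have h1 := congrArg (eval ![1, 0]) h
  have h2 := congrArg (eval ![1, 1]) h
  have h3 := congrArg (eval ![1, -1]) h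
  simp [K] at h1 h2 h3
  refine ⟨?_, ?_, h1⟩
  · linear_combination (1 / 2 : ℂ) * h2 + (1 / 2 : ℂ) * h3 - h1
  · linear_combination (1 / 2 : ℂ) * h2 - (1 / 2 : ℂ) * h3

def DD (a : ℂ) : ℂ := a ^ 4 + 12 * a ^ 3 - 6 * a ^ 2 - 12 * a + 9

lemma roots4 : ∃ r : Fin 4 → ℂ, Function.Injective r ∧ ∀ a, DD a = 0 ↔ a ∈ Set.range r := by
  let D : Polynomial ℂ := Polynomial.X ^ 4 + 12 * Polynomial.X ^ 3 - 6 * Polynomial.X ^ 2
    - 12 * Polynomial.X + 9
  have hdeg : D.natDegree = 4 := by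
    simp only [D]
    compute_degree!
  have hD0 : D ≠ 0 := by
    intro h; rw [h] at hdeg; simp at hdeg
  have hev : ∀ a, D.eval a = DD a := by intro a; simp [D, DD]
  have hsep : D.Separable := by
    rw [Polynomial.separable_def']
    refine ⟨Polynomial.C (11/48) + Polynomial.C (25/72) * Polynomial.X
      + Polynomial.C (5/144) * Polynomial.X ^ 2, Polynomial.C (17/192)
      + Polynomial.C (-11/192) * Polynomial.X + Polynomial.C (-65/576) * Polynomial.X ^ 2
      + Polynomial.C (-5/576) * Polynomial.X ^ 3, ?_⟩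
    apply Polynomial.funext
    intro a
    simp [D]
    ring
  have hnd : D.roots.Nodup := Polynomial.nodup_roots hsep
  have hcard : D.roots.toFinset.card = 4 := by
    rw [Multiset.toFinset_card_of_nodup hnd, ← hdeg]
    exact (IsAlgClosed.splits D).natDegree_eq_card_roots.symm
  let e := Finset.equivFinOfCardEq hcard
  refine ⟨fun i => (e.symm i : ℂ), Subtype.val_injective.comp e.symm.injective, fun a => ?_⟩
  constructor
  · intro h
    have ha : a ∈ D.roots.toFinset := by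
      rw [Multiset.mem_toFinset, Polynomial.mem_roots hD0, Polynomial.IsRoot, hev]; exact h
    exact ⟨e ⟨a, ha⟩, by simp⟩
  · rintro ⟨i, rfl⟩
    have ha := (e.symm i).2
    rw [Multiset.mem_toFinset, Polynomial.mem_roots hD0, Polynomial.IsRoot, hev] at ha
    exact ha

lemma ten : (linesThrough AA BB ![1, 0, 0, 1]).ncard = 10 := by
  obtain ⟨r, hr, hD⟩ := roots4
  have hsq : ∀ u : ℂ, ∃ s : ℂ, s ^ 2 = u := fun u => IsAlgClosed.exists_pow_nat_eq u (by norm_num)
  choose sq hsq using hsq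
  have hal : ∀ a, DD a = 0 → a ^ 3 - a ≠ 0 := by
    intro a h h'
    unfold DD at h
    have : (1 : ℂ) = 0 := by
      linear_combination (1 / 9 + 5 / 36 * a ^ 2) * h
        + (-4 / 3 + 7 / 12 * a - 5 / 3 * a ^ 2 - 5 / 36 * a ^ 3) * h'
    exact one_ne_zero this
  have hr0 : ∀ i, DD (r i) = 0 := fun i => (hD _).2 ⟨i, rfl⟩
  have hs : ∀ i, sq (r i ^ 3 - r i) ≠ 0 := by
    intro i h
    have := hsq (r i ^ 3 - r i)
    rw [h] at this
    exact hal _ (hr0 i) (by rw [← this]; norm_num)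
  have h3 : sq (-3) ≠ 0 := by
    intro h
    have := hsq (-3)
    rw [h] at this
    norm_num at this
  let sg : Bool → ℂ := fun b => if b then 1 else -1
  have sg2 : ∀ b, sg b ^ 2 = 1 := by intro b; cases b <;> simp [sg]
  have sginj : ∀ (b b' : Bool) (u : ℂ), u ≠ 0 → sg b * u = sg b' * u → b = b' := by
    intro b b' u hu h
    have h' := mul_right_cancel₀ hu h
    cases b <;> cases b' <;> simp [sg] at h' ⊢ <;> norm_num at h'
  have sgex : ∀ u t : ℂ, t ^ 2 = u ^ 2 → ∃ b, t = sg b * u := by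
    intro u t h
    rcases sq_eq_sq_iff_eq_or_eq_neg.1 h with h | h
    · exact ⟨true, by simp [sg, h]⟩
    · exact ⟨false, by simp [sg, h]⟩
  let F : Option (Fin 4) × Bool → MvPolynomial (Fin 2) ℂ × MvPolynomial (Fin 2) ℂ := fun p =>
    match p.1 with
    | none => (Q 0, K 0 (sg p.2 * sq (-3)) 0)
    | some i => (Q (r i), K ((3 * r i ^ 2 + 2 * r i - 3) / (2 * (sg p.2 * sq (r i ^ 3 - r i)))) 0
        (sg p.2 * sq (r i ^ 3 - r i)))
  have hF : Function.Injective F := by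
    rintro ⟨i | i, b⟩ ⟨j | j, b'⟩ h
    · have := sginj _ _ _ h3 (K_inj (congrArg Prod.snd h)).2.1
      rw [show b = b' from this]
    · have := Q_inj (congrArg Prod.fst h)
      exact absurd (by rw [← this]; norm_num) (hal _ (hr0 j))
    · have := Q_inj (congrArg Prod.fst h)
      exact absurd (by rw [this]; norm_num) (hal _ (hr0 i))
    · have h1 : i = j := hr (Q_inj (congrArg Prod.fst h))
      subst h1
      have := sginj _ _ _ (hs i) (K_inj (congrArg Prod.snd h)).2.2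
      rw [show b = b' from this]
  have hrange : linesThrough AA BB ![1, 0, 0, 1] = Set.range F := by
    ext L
    rw [mem_iff]
    constructor
    · rintro ⟨a, c1, c2, c3, rfl, g2, g3, g4, g5, g6⟩
      by_cases hc : c2 = 0
      · subst hc
        have hDa : DD a = 0 := by
          unfold DD
          linear_combination (-(3 * a ^ 2 + 2 * a - 3) - 2 * c1 * c3) * g4 + 4 * c3 ^ 2 * g2
            + 8 * a * g6
        obtain ⟨i, rfl⟩ := (hD a).1 hDa
        obtain ⟨b, hb⟩ := sgex (sq (r i ^ 3 - r i)) c3 (by rw [hsq, g6])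
        refine ⟨(some i, b), ?_⟩
        have hc3 : c3 ≠ 0 := by
          intro h; rw [h] at g6; exact hal _ hDa (by rw [← g6]; norm_num)
        have : (3 * r i ^ 2 + 2 * r i - 3) / (2 * c3) = c1 := by
          field_simp
          linear_combination -g4
        simp only [F, ← hb, this]
      · have h1 : c1 = 0 := (mul_eq_zero.1 g3).resolve_right hc
        have h2 : c3 = 0 := (mul_eq_zero.1 g5).resolve_left hc
        subst h1 h2
        have ha : a = 0 := by linear_combination (-1 / 2 : ℂ) * g2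
        subst ha
        obtain ⟨b, hb⟩ := sgex (sq (-3)) c2 (by rw [hsq]; linear_combination g4)
        exact ⟨(none, b), by simp only [F, ← hb]⟩
    · rintro ⟨⟨i | i, b⟩, rfl⟩
      · refine ⟨0, 0, sg b * sq (-3), 0, rfl, by norm_num, by norm_num, ?_, by norm_num,
          by norm_num⟩
        rw [mul_pow, sg2, hsq]; norm_num
      · have ht : (sg b * sq (r i ^ 3 - r i)) ^ 2 = r i ^ 3 - r i := by
          rw [mul_pow, sg2, hsq, one_mul]
        have ht0 : sg b * sq (r i ^ 3 - r i) ≠ 0 := by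
          intro h; rw [h] at ht; exact hal _ (hr0 i) (by rw [← ht]; norm_num)
        refine ⟨r i, _, 0, _, rfl, ?_, by norm_num, ?_, by norm_num, ht⟩
        · generalize sg b * sq (r i ^ 3 - r i) = t at ht ht0
          have := hr0 i
          unfold DD at this
          field_simp
          linear_combination this - 8 * r i * ht
        · generalize sg b * sq (r i ^ 3 - r i) = t at ht ht0
          field_simp
          ring
  rw [hrange, Set.ncard_range_of_injective hF]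
  simp

lemma swap_mem (L : MvPolynomial (Fin 2) ℂ × MvPolynomial (Fin 2) ℂ) (x y z w : ℂ)
    (h : L ∈ linesThrough AA BB ![x, y, z, w]) :
    (rename (Equiv.swap (0 : Fin 2) 1) L.1, rename (Equiv.swap (0 : Fin 2) 1) L.2)
      ∈ linesThrough AA BB ![x, y, w, z] := by
  obtain ⟨h1, h2, h3, h4, h5⟩ := h
  have eA : rename (Equiv.swap (0 : Fin 2) 1) AA = AA := by simp [AA]; ring
  have eB : rename (Equiv.swap (0 : Fin 2) 1) BB = BB := by simp [BB]; ring
  have ev : (![w, z] : Fin 2 → ℂ) ∘ (Equiv.swap (0 : Fin 2) 1) = ![z, w] := by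
    ext i; fin_cases i <;> simp
  refine ⟨h1.rename_isHomogeneous, h2.rename_isHomogeneous, ?_, ?_, ?_⟩
  · have := congrArg (rename (Equiv.swap (0 : Fin 2) 1)) h3
    simpa only [map_pow, map_add, map_mul, eA, eB] using this
  · simp only [eval_rename]
    exact (congrArg (fun f => eval f L.1) ev).trans h4
  · simp only [eval_rename]
    exact (congrArg (fun f => eval f L.2) ev).trans h5

lemma ten' : (linesThrough AA BB ![1, 0, 1, 0]).ncard = 10 := by
  rw [← ten]
  have hs : ∀ p : MvPolynomial (Fin 2) ℂ,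
      rename (Equiv.swap (0 : Fin 2) 1) (rename (Equiv.swap (0 : Fin 2) 1) p) = p := by
    intro p
    rw [rename_rename]
    have : (Equiv.swap (0 : Fin 2) 1) ∘ (Equiv.swap (0 : Fin 2) 1) = id := by
      ext i; simp
    rw [this, rename_id]; rfl
  apply Set.ncard_congr
    (fun L _ => (rename (Equiv.swap (0 : Fin 2) 1) L.1, rename (Equiv.swap (0 : Fin 2) 1) L.2))
  · intro L hL
    exact swap_mem L _ _ _ _ hL
  · intro L L' _ _ h
    have h1 := congrArg (fun p => rename (Equiv.swap (0 : Fin 2) 1) p.1) h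
    have h2 := congrArg (fun p => rename (Equiv.swap (0 : Fin 2) 1) p.2) h
    simp only [hs] at h1 h2
    exact Prod.ext h1 h2
  · intro L hL
    exact ⟨_, swap_mem L _ _ _ _ hL, by simp only [hs]⟩

theorem result :
    ∃ A B : MvPolynomial (Fin 2) ℂ, A.IsHomogeneous 4 ∧ B.IsHomogeneous 6 ∧ SmoothSurface A B ∧
      ∃ P₁ P₂ : Fin 4 → ℂ, eval P₁ (sextic A B) = 0 ∧ eval P₂ (sextic A B) = 0 ∧
        P₁ 2 * P₂ 3 ≠ P₁ 3 * P₂ 2 ∧
        (linesThrough A B P₁).ncard = 10 ∧ (linesThrough A B P₂).ncard = 10 := by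
  refine ⟨AA, BB, AA_hom, BB_hom, smooth, ![1, 0, 0, 1], ![1, 0, 1, 0], ?_, ?_, ?_, ten, ten'⟩
  · simp [sextic, AA, BB]
  · simp [sextic, AA, BB]
  · simp

end Pool.Agent.Results.MP_3c244b_ag.TwoPoints
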